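import Pool.Agent.Lib_helper82.T12.Defs

/-! T12: Chebyshev (`P6`) and the number of primes with `χ(p) ≠ -1` (`P3`). -/

set_option autoImplicit false

namespace Pool.Agent.T12

open Finset Filter Topology
open Pool.Agent.LK (PQ)

theorem P3P6_pix (X : ℕ) : pix X = (Nat.primeCounting X : ℝ) := by
  unfold pix cp
  rw [Nat.primeCounting, Nat.primeCounting', Nat.count_eq_card_filter_range]
  simp

theorem P6_pr : P6 := by
  refine ⟨1 / 4, 4, by norm_num, fun X hX => ?_⟩
  have hX4 : (4 : ℝ) ≤ X := by exact_mod_cast hX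
  have hlog : 0 < Real.log X := Real.log_pos (by linarith)
  rw [P3P6_pix]
  refine le_trans ?_ (Chebyshev.pi_ge X)
  apply div_le_div_of_nonneg_right _ hlog.le
  have h2 : 0.6931471803 < Real.log 2 := Real.log_two_gt_d9
  have h3 : Real.log ((X : ℝ) + 1) ≤ ((X : ℝ) + 1) / 4 - 1 + 2 * Real.log 2 := by
    have h4 : Real.log (((X : ℝ) + 1) / 4) ≤ ((X : ℝ) + 1) / 4 - 1 :=
      Real.log_le_sub_one_of_pos (by positivity)
    rw [Real.log_div (by positivity) (by norm_num)] at h4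
    have h5 : Real.log 4 = 2 * Real.log 2 := by
      rw [show (4 : ℝ) = 2 ^ 2 by norm_num, Real.log_pow]
      norm_num
    linarith
  nlinarith

theorem P3P6_re {q : ℕ} [NeZero q] {χ : DirichletCharacter ℂ q} (h : PQ χ) (n : ℕ) :
    -1 ≤ (χ (n : ZMod q)).re ∧ (χ (n : ZMod q) ≠ -1 → 0 ≤ (χ (n : ZMod q)).re) := by
  by_cases hu : IsUnit (n : ZMod q)
  · have h1 : χ (n : ZMod q) ^ 2 = 1 := by
      have h2 : (χ ^ 2) (n : ZMod q) = 1 := by
        rw [h.sq, MulChar.one_apply hu]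
      rwa [MulChar.pow_apply' χ (by norm_num)] at h2
    have h3 : χ (n : ZMod q) = 1 ∨ χ (n : ZMod q) = -1 := by
      have h4 : (χ (n : ZMod q) - 1) * (χ (n : ZMod q) + 1) = 0 := by linear_combination h1
      rcases mul_eq_zero.1 h4 with h5 | h5
      · exact Or.inl (sub_eq_zero.1 h5)
      · exact Or.inr (eq_neg_of_add_eq_zero_left h5)
    rcases h3 with h3 | h3
    · rw [h3]; simp
    · rw [h3]; simp
  · rw [MulChar.map_nonunit χ hu]; simp

/-- the number of primes with `χ(p) ≠ -1` in one window -/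
theorem P3P6_win {C c K₀ : ℝ} (hC : 1 ≤ C) (hc : 0 < c) (h2 : ∀ (q : ℕ) [NeZero q]
    (χ : DirichletCharacter ℂ q) (β : ℝ), RZ χ β → ∀ M : ℝ, K₀ ≤ M → K₀ * Real.log q ≤ M →
    ∑ p ∈ PM M, (1 + (χ (p : ZMod q)).re) * (Real.log p / p) ≤
      C * ((1 - β) * M + Real.exp (-(c * M)))) {q : ℕ} [NeZero q]
    {χ : DirichletCharacter ℂ q} {β : ℝ} (h : RZ χ β) {M L δ : ℝ} (hM : K₀ ≤ M)
    (hMq : K₀ * Real.log q ≤ M) (hML : M ≤ L) (hLM : L / 2 ≤ M) (hL : 4 ≤ L)
    (hδ : (1 - β) * L ≤ δ) :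
    (((PM M).filter fun p : ℕ => χ (p : ZMod q) ≠ -1).card : ℝ) ≤
      Real.exp (M + 1) * (4 / L) * (C * (δ + Real.exp (-(c * (L / 2))))) := by
  have h3 := h2 q χ β h M hM hMq
  have hβ : 0 < 1 - β := by linarith [h.lt]
  have h4 : C * ((1 - β) * M + Real.exp (-(c * M))) ≤
      C * (δ + Real.exp (-(c * (L / 2)))) := by
    apply mul_le_mul_of_nonneg_left _ (by linarith)
    apply add_le_add
    · exact (mul_le_mul_of_nonneg_left hML hβ.le).trans hδ
    · apply Real.exp_le_exp.2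
      nlinarith
  have hE : 0 < Real.exp (M + 1) := Real.exp_pos _
  have h5 : (((PM M).filter fun p : ℕ => χ (p : ZMod q) ≠ -1).card : ℝ) *
      (L / 4 / Real.exp (M + 1)) ≤
      ∑ p ∈ PM M, (1 + (χ (p : ZMod q)).re) * (Real.log p / p) := by
    rw [← nsmul_eq_mul, ← Finset.sum_const]
    refine le_trans (Finset.sum_le_sum (f := fun _ => L / 4 / Real.exp (M + 1))
      (g := fun p : ℕ => (1 + (χ (p : ZMod q)).re) * (Real.log p / p)) ?_)
      (Finset.sum_le_sum_of_subset_of_nonneg (Finset.filter_subset _ _) ?_)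
    · intro p hp
      obtain ⟨hp1, hp2⟩ := Finset.mem_filter.1 hp
      obtain ⟨hp3, hp4, hp5⟩ := Finset.mem_filter.1 hp1
      have hp0 : (0 : ℝ) < p := by exact_mod_cast hp4.pos
      have h6 := (P3P6_re h.pq p).2 hp2
      have h7 := abs_le.1 hp5
      have h8 : (p : ℝ) ≤ Real.exp (M + 1) := by
        rw [← Real.exp_log hp0]
        exact Real.exp_le_exp.2 (by linarith [h7.2])
      have h9 : L / 4 ≤ Real.log p := by linarith [h7.1]
      have h10 : L / 4 / Real.exp (M + 1) ≤ Real.log p / p := by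
        apply div_le_div₀ (by linarith) h9 hp0 h8
      have h11 : 0 ≤ L / 4 / Real.exp (M + 1) := by positivity
      nlinarith
    · intro p hp _
      obtain ⟨_, hp4, _⟩ := Finset.mem_filter.1 hp
      have hp0 : (0 : ℝ) < p := by exact_mod_cast hp4.pos
      have hp1 : (1 : ℝ) ≤ p := by exact_mod_cast hp4.one_lt.le
      have h6 := (P3P6_re h.pq p).1
      have h7 := Real.log_nonneg hp1
      apply mul_nonneg (by linarith) (by positivity)
  have h6 := (h5.trans h3).trans h4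
  have h7 : 0 < L / 4 / Real.exp (M + 1) := by positivity
  have h8 : Real.exp (M + 1) * (4 / L) * (C * (δ + Real.exp (-(c * (L / 2))))) =
      (C * (δ + Real.exp (-(c * (L / 2))))) / (L / 4 / Real.exp (M + 1)) := by
    field_simp
  rw [h8, le_div_iff₀ h7]
  exact h6

theorem P3P6_geo (L : ℝ) (J : Finset ℕ) (m : ℕ) (hJ : J ⊆ Finset.range m) :
    ∑ j ∈ J, Real.exp (L - 2 * j) ≤ 2 * Real.exp L := by
  have h0 : Real.exp (-2) ≤ 1 / 2 := by
    have h1 : (1 : ℝ) + 2 ≤ Real.exp 2 := by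
      have := Real.add_one_le_exp (2 : ℝ)
      linarith
    rw [Real.exp_neg]
    rw [inv_le_comm₀ (Real.exp_pos 2) (by norm_num)]
    linarith
  calc ∑ j ∈ J, Real.exp (L - 2 * j) ≤ ∑ j ∈ Finset.range m, Real.exp (L - 2 * j) :=
        Finset.sum_le_sum_of_subset_of_nonneg hJ fun _ _ _ => (Real.exp_pos _).le
    _ ≤ ∑ j ∈ Finset.range m, Real.exp L * (1 / 2 : ℝ) ^ j := by
        apply Finset.sum_le_sum
        intro j _
        have h1 : Real.exp (L - 2 * j) = Real.exp L * Real.exp (-2) ^ j := by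
          rw [← Real.exp_nat_mul, ← Real.exp_add]
          ring_nf
        rw [h1]
        apply mul_le_mul_of_nonneg_left _ (Real.exp_pos L).le
        exact pow_le_pow_left₀ (Real.exp_pos _).le h0 j
    _ = Real.exp L * ∑ j ∈ Finset.range m, (1 / 2 : ℝ) ^ j := by rw [Finset.mul_sum]
    _ ≤ Real.exp L * 2 := by
        apply mul_le_mul_of_nonneg_left _ (Real.exp_pos L).le
        rw [geom_sum_eq (by norm_num)]
        have h2 : (0 : ℝ) < (1 / 2 : ℝ) ^ m := by positivity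
        rw [div_le_iff_of_neg (by norm_num)]
        linarith
    _ = 2 * Real.exp L := by ring

theorem P3_pr (h2 : P2) (h6 : P6) : P3 := by
  obtain ⟨C, c, K₀, hC, hc, hK₀, h2⟩ := h2
  obtain ⟨c₆, X₆, hc₆, h6⟩ := h6
  refine ⟨2 * K₀, by linarith, fun η hη => ?_⟩
  -- the small quantities
  set δ : ℝ := η * c₆ / (24 * C) with hδ
  have hδ0 : 0 < δ := by positivity
  -- two limits
  have hlim1 : ∀ᶠ X : ℕ in atTop, Real.exp (-(c * (Real.log X / 2))) ≤ δ := by
    have h1 : Tendsto (fun X : ℕ => -(c * (Real.log X / 2))) atTop atBot := by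
      have h3 : Tendsto (fun X : ℕ => Real.log (X : ℝ)) atTop atTop :=
        Real.tendsto_log_atTop.comp tendsto_natCast_atTop_atTop
      have h4 : Tendsto (fun X : ℕ => c / 2 * Real.log (X : ℝ)) atTop atTop :=
        h3.const_mul_atTop (by positivity)
      have h5 := tendsto_neg_atTop_atBot.comp h4
      refine h5.congr fun X => ?_
      simp only [Function.comp]
      ring
    have h3 := Real.tendsto_exp_atBot.comp h1
    exact (h3.eventually (gt_mem_nhds hδ0)).mono fun X hX => le_of_lt hX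
  have hlim2 : ∀ᶠ X : ℕ in atTop, Real.exp 1 * √(X : ℝ) + 1 ≤ η / 3 * (c₆ * X / Real.log X) := by
    have h1 : Tendsto (fun X : ℝ => Real.log X / X ^ ((1 : ℝ) / 4)) atTop (𝓝 0) := by
      have := (isLittleO_log_rpow_atTop (show (0 : ℝ) < 1 / 4 by norm_num)).tendsto_div_nhds_zero
      exact this
    have h3 : Tendsto (fun X : ℕ => Real.log (X : ℝ) / (X : ℝ) ^ ((1 : ℝ) / 4)) atTop (𝓝 0) :=
      h1.comp tendsto_natCast_atTop_atTop
    have h4 : 0 < η / 3 * c₆ / (Real.exp 1 + 1) := by positivity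
    filter_upwards [h3.eventually (gt_mem_nhds h4), eventually_ge_atTop 3] with X hX hX3
    have hX0 : (0 : ℝ) < X := by exact_mod_cast (show 0 < X by omega)
    have hX1 : (1 : ℝ) ≤ X := by exact_mod_cast (show 1 ≤ X by omega)
    have hX2 : (1 : ℝ) < X := by exact_mod_cast (show 1 < X by omega)
    have hlog : 0 < Real.log X := Real.log_pos hX2
    have h5 : Real.log X < η / 3 * c₆ / (Real.exp 1 + 1) * (X : ℝ) ^ ((1 : ℝ) / 4) := by
      rwa [div_lt_iff₀ (by positivity)] at hX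
    have h7 : √(X : ℝ) = (X : ℝ) ^ ((1 : ℝ) / 2) := Real.sqrt_eq_rpow _
    have h8 : (1 : ℝ) ≤ √(X : ℝ) := by rw [Real.one_le_sqrt]; exact hX1
    have h9 : Real.exp 1 * √(X : ℝ) + 1 ≤ (Real.exp 1 + 1) * √(X : ℝ) := by nlinarith
    refine h9.trans ?_
    rw [← mul_div_assoc, le_div_iff₀ hlog]
    have h10 : √(X : ℝ) * (X : ℝ) ^ ((1 : ℝ) / 4) ≤ X := by
      rw [h7, ← Real.rpow_add hX0]
      calc (X : ℝ) ^ ((1 : ℝ) / 2 + 1 / 4) ≤ (X : ℝ) ^ (1 : ℝ) :=
            Real.rpow_le_rpow_of_exponent_le hX1 (by norm_num)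
        _ = X := Real.rpow_one _
    have hE : 0 < Real.exp 1 + 1 := by positivity
    have h11 : (Real.exp 1 + 1) * √(X : ℝ) * Real.log X ≤
        (Real.exp 1 + 1) * √(X : ℝ) * (η / 3 * c₆ / (Real.exp 1 + 1) * (X : ℝ) ^ ((1 : ℝ) / 4)) :=
      mul_le_mul_of_nonneg_left h5.le (by positivity)
    refine h11.trans ?_
    have h12 : (Real.exp 1 + 1) * √(X : ℝ) *
        (η / 3 * c₆ / (Real.exp 1 + 1) * (X : ℝ) ^ ((1 : ℝ) / 4)) =
        η / 3 * c₆ * (√(X : ℝ) * (X : ℝ) ^ ((1 : ℝ) / 4)) := by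
      field_simp
    rw [h12]
    have h13 : η / 3 * c₆ * (√(X : ℝ) * (X : ℝ) ^ ((1 : ℝ) / 4)) ≤ η / 3 * c₆ * X :=
      mul_le_mul_of_nonneg_left h10 (by positivity)
    linarith
  have hlim3 : ∀ᶠ X : ℕ in atTop, max 4 (2 * K₀) ≤ Real.log (X : ℝ) :=
    (Real.tendsto_log_atTop.comp tendsto_natCast_atTop_atTop).eventually_ge_atTop _
  obtain ⟨X₀, hX₀⟩ := (hlim1.and (hlim2.and (hlim3.and (eventually_ge_atTop X₆)))).exists_forall_of_atTop
  refine ⟨δ, X₀, hδ0, fun q _ χ β h X hX hq hβ => ?_⟩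
  obtain ⟨h7, h8, h9, h10⟩ := hX₀ X hX
  have hpi := h6 X h10
  set L : ℝ := Real.log X with hL
  have hL4 : 4 ≤ L := (le_max_left _ _).trans h9
  have hLK : 2 * K₀ ≤ L := (le_max_right _ _).trans h9
  have hX0 : (0 : ℝ) < X := by
    by_contra hcon
    have h11 : (X : ℝ) = 0 := le_antisymm (not_lt.1 hcon) (Nat.cast_nonneg _)
    rw [hL, h11, Real.log_zero] at hL4
    linarith
  have hXL : Real.exp L = X := Real.exp_log hX0
  set m : ℕ := ⌊L⌋₊ + 1 with hm
  set J : Finset ℕ := (Finset.range m).filter fun j : ℕ => L / 2 ≤ L - 1 - 2 * j with hJ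
  -- the covering
  have hcov : ((Finset.range (X + 1)).filter (fun n : ℕ => n.Prime ∧ χ (n : ZMod q) ≠ -1)) ⊆
      Finset.range (⌊Real.exp 1 * √(X : ℝ)⌋₊ + 1) ∪ J.biUnion fun j =>
        (PM (L - 1 - 2 * j)).filter fun p : ℕ => χ (p : ZMod q) ≠ -1 := by
    intro n hn
    obtain ⟨hn1, hn2, hn3⟩ := Finset.mem_filter.1 hn
    have hn0 : (0 : ℝ) < n := by exact_mod_cast hn2.pos
    have hnX : (n : ℝ) ≤ X := by exact_mod_cast (Nat.lt_succ_iff.1 (Finset.mem_range.1 hn1))
    rw [Finset.mem_union]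
    by_cases hs : (n : ℝ) ≤ Real.exp 1 * √(X : ℝ)
    · left
      exact Finset.mem_range.2 (Nat.lt_succ_of_le (Nat.le_floor hs))
    · right
      push Not at hs
      have hlogn : L / 2 + 1 < Real.log n := by
        have h11 : Real.log (Real.exp 1 * √(X : ℝ)) < Real.log n :=
          Real.log_lt_log (by positivity) hs
        rw [Real.log_mul (by positivity) (by positivity), Real.log_exp,
          Real.log_sqrt hX0.le] at h11
        linarith
      have hlogn' : Real.log n ≤ L := Real.log_le_log hn0 hnX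
      set j : ℕ := ⌊(L - Real.log n) / 2⌋₊ with hj
      have h12 : (j : ℝ) ≤ (L - Real.log n) / 2 := Nat.floor_le (by linarith)
      have h13 : (L - Real.log n) / 2 < j + 1 := Nat.lt_floor_add_one _
      have h14 : j < m := by
        have h15 : (j : ℝ) ≤ L := by linarith
        have h16 : j ≤ ⌊L⌋₊ := Nat.le_floor h15
        omega
      refine Finset.mem_biUnion.2 ⟨j, Finset.mem_filter.2 ⟨Finset.mem_range.2 h14, ?_⟩,
        Finset.mem_filter.2 ⟨Finset.mem_filter.2 ⟨?_, hn2, ?_⟩, hn3⟩⟩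
      · linarith
      · apply Finset.mem_range.2
        apply Nat.lt_succ_of_le
        apply Nat.le_floor
        rw [← Real.exp_log hn0]
        exact Real.exp_le_exp.2 (by linarith)
      · rw [abs_le]
        constructor <;> linarith
  have hcard : cp (fun n => χ (n : ZMod q) ≠ -1) X ≤
      (Real.exp 1 * √(X : ℝ) + 1) + ∑ j ∈ J,
        (((PM (L - 1 - 2 * j)).filter fun p : ℕ => χ (p : ZMod q) ≠ -1).card : ℝ) := by
    unfold cp
    have h11 := (Finset.card_le_card hcov).trans (Finset.card_union_le _ _)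
    have h12 : (Finset.range (⌊Real.exp 1 * √(X : ℝ)⌋₊ + 1)).card ≤
        ⌊Real.exp 1 * √(X : ℝ)⌋₊ + 1 := by rw [Finset.card_range]
    have h13 := Finset.card_biUnion_le (s := J) (t := fun j : ℕ =>
        (PM (L - 1 - 2 * j)).filter fun p : ℕ => χ (p : ZMod q) ≠ -1)
    have h14 : (⌊Real.exp 1 * √(X : ℝ)⌋₊ : ℝ) ≤ Real.exp 1 * √(X : ℝ) :=
      Nat.floor_le (by positivity)
    have h15 : ((((Finset.range (X + 1)).filter
        (fun n : ℕ => n.Prime ∧ χ (n : ZMod q) ≠ -1)).card : ℕ) : ℝ) ≤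
        ((⌊Real.exp 1 * √(X : ℝ)⌋₊ + 1 + ∑ j ∈ J,
        ((PM (L - 1 - 2 * j)).filter fun p : ℕ => χ (p : ZMod q) ≠ -1).card : ℕ) : ℝ) := by
      exact Nat.cast_le.2 (h11.trans (add_le_add h12 h13))
    push_cast at h15
    refine le_trans (le_of_eq ?_) (h15.trans (by linarith))
    congr!
  have hwin : ∀ j ∈ J, (((PM (L - 1 - 2 * j)).filter fun p : ℕ =>
      χ (p : ZMod q) ≠ -1).card : ℝ) ≤
      Real.exp (L - 2 * j) * (4 / L * (C * (δ + δ))) := by
    intro j hj
    obtain ⟨_, hj2⟩ := Finset.mem_filter.1 hj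
    have hj0 : (0 : ℝ) ≤ j := Nat.cast_nonneg _
    have h11 := P3P6_win hC hc h2 h (M := L - 1 - 2 * j) (L := L) (δ := δ) (by linarith)
      (by nlinarith) (by linarith) hj2 hL4 hβ
    refine h11.trans ?_
    have h12 : L - 1 - 2 * (j : ℝ) + 1 = L - 2 * j := by ring
    rw [h12, mul_assoc]
    apply mul_le_mul_of_nonneg_left _ (Real.exp_pos _).le
    apply mul_le_mul_of_nonneg_left _ (by positivity)
    apply mul_le_mul_of_nonneg_left _ (by linarith)
    linarith
  have hsum : ∑ j ∈ J, (((PM (L - 1 - 2 * j)).filter fun p : ℕ =>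
      χ (p : ZMod q) ≠ -1).card : ℝ) ≤ 2 * X * (4 / L * (C * (δ + δ))) := by
    refine (Finset.sum_le_sum hwin).trans ?_
    rw [← Finset.sum_mul]
    apply mul_le_mul_of_nonneg_right _ (by positivity)
    have := P3P6_geo L J m (Finset.filter_subset _ _)
    rwa [hXL] at this
  have hfin : 2 * X * (4 / L * (C * (δ + δ))) = 2 / 3 * (η * (c₆ * X / L)) := by
    rw [hδ]
    field_simp
    ring
  have h11 : η * (c₆ * X / L) ≤ η * pix X := mul_le_mul_of_nonneg_left hpi hη.le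
  calc cp (fun n => χ (n : ZMod q) ≠ -1) X ≤ _ := hcard
    _ ≤ η / 3 * (c₆ * X / L) + 2 / 3 * (η * (c₆ * X / L)) := by
        rw [hfin] at hsum
        exact add_le_add h8 hsum
    _ = η * (c₆ * X / L) := by ring
    _ ≤ η * pix X := h11

end Pool.Agent.T12
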