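import Pool.Agent.Lib_helper82.T12.Defs
import Pool.Agent.Lib_helper15.EXC.XE

/-! T12: zeros and `L(1, χ)`, upper bound (`P4`). -/

set_option autoImplicit false

namespace Pool.Agent.T12

open Finset Filter Topology
open Pool.Agent.LK (PQ)

theorem P4_pr : P4 := by
  obtain ⟨C, hC, c, hc, hc16, hx⟩ := EXC.x2
  set d : ℝ := min c (1 / (2 * C)) with hd
  have hd0 : 0 < d := by positivity
  refine ⟨max 1 (8 / d ^ 2), le_max_left _ _, c, hc, fun q _ χ β h hβ => ?_⟩
  have hLF : ∀ s : ℂ, GA.LF χ s = DirichletCharacter.LFunction χ s := fun s => by rw [GA.LF_eq χ]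
  obtain ⟨hβ1, g, g₀, hg, hg0, hg1, hfac, hball, -⟩ := hx q χ h.pq.ne h.pq.sq β
    (by rw [hLF]; exact h.zero) hβ
  have hq3 : 3 ≤ q := GA.three_le h.pq.ne
  have hqr : (3 : ℝ) ≤ q := by exact_mod_cast hq3
  have hlq : 0 < Real.log q := Real.log_pos (by linarith)
  have hlq1 : 1 ≤ Real.log q := by
    rw [Real.le_log_iff_exp_le (by linarith)]
    have := Real.exp_one_lt_d9
    linarith
  have hL1 : ‖DirichletCharacter.LFunction χ 1‖ = (1 - β) * g₀ := by
    have h1 := hfac 0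
    rw [add_zero, zero_add, hg1, hLF] at h1
    rw [h1, ← Complex.ofReal_mul, Complex.norm_real, Real.norm_of_nonneg (by positivity)]
  rw [hL1]
  refine ⟨by nlinarith, ?_⟩
  -- the upper bound for g₀
  set w : ℝ := d / Real.log q with hw
  have hw0 : 0 < w := by positivity
  have hw1 : w ≤ 1 := by
    rw [hw, div_le_one hlq]
    have : d ≤ c := min_le_left _ _
    linarith
  have hnw : ‖(w : ℂ)‖ = w := by rw [Complex.norm_real, Real.norm_of_nonneg hw0.le]
  obtain ⟨-, -, h3⟩ := hball (w : ℂ) (by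
    rw [hnw, hw]
    exact div_le_div_of_nonneg_right (min_le_left _ _) hlq.le)
  rw [hnw] at h3
  have h4 : C * Real.log q * w ≤ 1 / 2 := by
    have h5 : C * Real.log q * w = C * d := by
      rw [hw]; field_simp
    rw [h5]
    have h6 : d ≤ 1 / (2 * C) := min_le_right _ _
    calc C * d ≤ C * (1 / (2 * C)) := mul_le_mul_of_nonneg_left h6 (by linarith)
      _ = 1 / 2 := by field_simp
  have hg00 : 0 < g₀ := by linarith
  have h5 : g₀ ≤ 2 * ‖g w‖ := by
    have h6 : ‖(g₀ : ℂ)‖ ≤ ‖g w‖ + ‖g w - g₀‖ := by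
      have := norm_sub_le (g w) (g w - g₀)
      rwa [sub_sub_cancel] at this
    rw [Complex.norm_real, Real.norm_of_nonneg hg00.le] at h6
    have h7 : C * Real.log q * w * g₀ ≤ 1 / 2 * g₀ := mul_le_mul_of_nonneg_right h4 hg00.le
    linarith
  have h6 : ‖GA.LF χ (1 + w)‖ ≤ 2 / w := by
    have hre : 1 < (1 + (w : ℂ)).re := by simpa using hw0
    rw [GA.LF_eq_LS χ hre]
    have h7 := GA.norm_LS_le (fun n => χ (n : ZMod q))
      (fun n => DirichletCharacter.norm_le_one _ _) hre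
    refine h7.trans ?_
    have h8 : (1 + (w : ℂ)).re = 1 + w := by simp
    rw [h8, show 1 + w - 1 = w by ring]
    exact div_le_div_of_nonneg_right (by linarith) hw0.le
  have h7 : ‖GA.LF χ (1 + w)‖ = (w + (1 - β)) * ‖g w‖ := by
    rw [hfac, norm_mul, ← Complex.ofReal_add, Complex.norm_real,
      Real.norm_of_nonneg (by positivity)]
  have h8 : ‖g w‖ ≤ 2 / w ^ 2 := by
    rw [h7] at h6
    have h9 : w * ‖g w‖ ≤ 2 / w := by
      refine le_trans ?_ h6
      exact mul_le_mul_of_nonneg_right (by linarith) (norm_nonneg _)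
    have h10 : 2 / w ^ 2 = (2 / w) / w := by field_simp
    rw [h10, le_div_iff₀ hw0]
    linarith
  have h9 : g₀ ≤ 4 / w ^ 2 := by
    calc g₀ ≤ 2 * (2 / w ^ 2) := h5.trans (by linarith)
      _ = 4 / w ^ 2 := by ring
  have h10 : 4 / w ^ 2 = 4 / d ^ 2 * Real.log q ^ 2 := by
    rw [hw]; field_simp
  rw [h10] at h9
  have h11 : 4 / d ^ 2 ≤ max 1 (8 / d ^ 2) := by
    refine le_trans ?_ (le_max_right _ _)
    exact div_le_div_of_nonneg_right (by norm_num) (by positivity)
  calc (1 - β) * g₀ ≤ (1 - β) * (4 / d ^ 2 * Real.log q ^ 2) :=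
        mul_le_mul_of_nonneg_left h9 hβ1.le
    _ ≤ (1 - β) * (max 1 (8 / d ^ 2) * Real.log q ^ 2) := by
        apply mul_le_mul_of_nonneg_left _ hβ1.le
        exact mul_le_mul_of_nonneg_right h11 (by positivity)
    _ = max 1 (8 / d ^ 2) * (1 - β) * Real.log q ^ 2 := by ring

end Pool.Agent.T12
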